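import Mathlib

/-!
2-rainbow independent domination: the graphs with domination number two (MP_821169_co).
-/

set_option linter.unusedSectionVars false
set_option linter.unusedVariables false

open Finset

namespace Pool.Agent.Helper58.Late.Ri2

variable {V : Type} [Fintype V] [DecidableEq V]

/-- `f` is a 2-rainbow independent dominating function of `G`: the sets `f = 1` and `f = 2` are independent and
every vertex with `f u = 0` has a neighbour with the value `1` and a neighbour with the value `2`. -/
def IsRi2 (G : SimpleGraph V) (f : V → Fin 3) : Prop :=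
  (∀ x y, f x = 1 → f y = 1 → ¬ G.Adj x y) ∧ (∀ x y, f x = 2 → f y = 2 → ¬ G.Adj x y) ∧
    ∀ u, f u = 0 → (∃ x, G.Adj u x ∧ f x = 1) ∧ ∃ y, G.Adj u y ∧ f y = 2

/-- the weight of `f`: the number of the vertices with `f x ≠ 0` -/
def weight (f : V → Fin 3) : ℕ := (univ.filter fun x => f x ≠ 0).card

/-- the 2-rainbow independent domination number -/
noncomputable def gam (G : SimpleGraph V) : ℕ := sInf {w | ∃ f : V → Fin 3, IsRi2 G f ∧ weight f = w}

/-- `u`, `v` are distinct and adjacent to all other vertices -/
def PD (G : SimpleGraph V) (u v : V) : Prop := u ≠ v ∧ ∀ w, w ≠ u → w ≠ v → G.Adj w u ∧ G.Adj w v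

theorem two_le_weight {G : SimpleGraph V} (h2 : 2 ≤ Fintype.card V) {f : V → Fin 3} (hf : IsRi2 G f) :
    2 ≤ weight f := by
  by_cases h : ∃ u, f u = 0
  · obtain ⟨u, hu⟩ := h
    obtain ⟨⟨x, _, hx⟩, y, _, hy⟩ := hf.2.2 u hu
    have hxy : x ≠ y := fun h => by
      rw [h, hy] at hx
      exact absurd hx (by decide)
    have : ({x, y} : Finset V) ⊆ univ.filter fun x => f x ≠ 0 := by
      intro z hz
      rw [mem_insert, mem_singleton] at hz
      rw [mem_filter]
      rcases hz with rfl | rfl
      · exact ⟨mem_univ _, by rw [hx]; decide⟩
      · exact ⟨mem_univ _, by rw [hy]; decide⟩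
    calc 2 = ({x, y} : Finset V).card := (card_pair hxy).symm
      _ ≤ _ := card_le_card this
  · push Not at h
    unfold weight
    rw [filter_true_of_mem fun x _ => h x]
    exact h2

theorem gam_eq_two_iff {G : SimpleGraph V} (h2 : 2 ≤ Fintype.card V) :
    gam G = 2 ↔ ∃ u v, PD G u v := by
  constructor
  · intro h
    have hne : {w | ∃ f : V → Fin 3, IsRi2 G f ∧ weight f = w}.Nonempty := by
      by_contra h0
      rw [Set.not_nonempty_iff_eq_empty] at h0
      unfold gam at h
      rw [h0, Nat.sInf_empty] at h
      exact absurd h (by decide)
    obtain ⟨f, hf, hw⟩ := Nat.sInf_mem hne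
    have hw2 : weight f = 2 := by rw [hw]; exact h
    by_cases h3 : ∃ u, f u = 0
    · obtain ⟨u, hu⟩ := h3
      obtain ⟨⟨x, _, hx⟩, y, _, hy⟩ := hf.2.2 u hu
      have hxy : x ≠ y := fun h => by
        rw [h, hy] at hx
        exact absurd hx (by decide)
      have hsub : ({x, y} : Finset V) ⊆ univ.filter fun x => f x ≠ 0 := by
        intro z hz
        rw [mem_insert, mem_singleton] at hz
        rw [mem_filter]
        rcases hz with rfl | rfl
        · exact ⟨mem_univ _, by rw [hx]; decide⟩
        · exact ⟨mem_univ _, by rw [hy]; decide⟩
      have heq : ({x, y} : Finset V) = univ.filter fun x => f x ≠ 0 :=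
        eq_of_subset_of_card_le hsub (by rw [card_pair hxy]; exact hw2.le)
      have hz : ∀ z, f z ≠ 0 → z = x ∨ z = y := by
        intro z hz
        have : z ∈ ({x, y} : Finset V) := by
          rw [heq, mem_filter]
          exact ⟨mem_univ _, hz⟩
        simpa using this
      refine ⟨x, y, hxy, fun w hwx hwy => ?_⟩
      have hw0 : f w = 0 := by
        by_contra h0
        rcases hz w h0 with h | h
        · exact hwx h
        · exact hwy h
      obtain ⟨⟨a, ha, ha1⟩, b, hb, hb1⟩ := hf.2.2 w hw0
      have hax : a = x := by
        rcases hz a (by rw [ha1]; decide) with h | h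
        · exact h
        · rw [h, hy] at ha1
          exact absurd ha1 (by decide)
      have hby : b = y := by
        rcases hz b (by rw [hb1]; decide) with h | h
        · rw [h, hx] at hb1
          exact absurd hb1 (by decide)
        · exact h
      exact ⟨hax ▸ ha, hby ▸ hb⟩
    · push Not at h3
      have hc : Fintype.card V = 2 := by
        unfold weight at hw2
        rw [filter_true_of_mem fun x _ => h3 x] at hw2
        exact hw2
      obtain ⟨x, y, hxy, hu⟩ := Finset.card_eq_two.1 (show (univ : Finset V).card = 2 from hc)
      refine ⟨x, y, hxy, fun w hwx hwy => ?_⟩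
      have : w ∈ (univ : Finset V) := mem_univ w
      rw [hu, mem_insert, mem_singleton] at this
      rcases this with h | h
      · exact absurd h hwx
      · exact absurd h hwy
  · rintro ⟨u, v, huv, h⟩
    have hmem : 2 ∈ {w | ∃ f : V → Fin 3, IsRi2 G f ∧ weight f = w} := by
      refine ⟨fun x => if x = u then 1 else if x = v then 2 else 0, ⟨?_, ?_, ?_⟩, ?_⟩
      · intro x y hx hy
        have ex : x = u := by
          by_contra h0
          simp only [h0, if_false] at hx
          split_ifs at hx <;> exact absurd hx (by decide)
        have ey : y = u := by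
          by_contra h0
          simp only [h0, if_false] at hy
          split_ifs at hy <;> exact absurd hy (by decide)
        rw [ex, ey]
        exact G.loopless.irrefl u
      · intro x y hx hy
        have ex : x = v := by
          by_contra h0
          simp only [h0, if_false] at hx
          split_ifs at hx <;> exact absurd hx (by decide)
        have ey : y = v := by
          by_contra h0
          simp only [h0, if_false] at hy
          split_ifs at hy <;> exact absurd hy (by decide)
        rw [ex, ey]
        exact G.loopless.irrefl v
      · intro w hw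
        have e1 : w ≠ u := fun h0 => by simp [h0] at hw
        have e2 : w ≠ v := fun h0 => by
          rw [h0] at hw
          simp [huv.symm] at hw
        exact ⟨⟨u, (h w e1 e2).1, by simp⟩, v, (h w e1 e2).2, by simp [huv.symm]⟩
      · unfold weight
        have : (univ.filter fun x => (if x = u then (1 : Fin 3) else if x = v then 2 else 0) ≠ 0) = {u, v} := by
          ext x
          simp only [mem_filter, mem_univ, true_and, mem_insert, mem_singleton]
          by_cases h1 : x = u
          · simp [h1]
          · by_cases h2 : x = v
            · simp [h2, huv.symm]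
            · simp [h1, h2]
        rw [this, card_pair huv]
    refine le_antisymm (Nat.sInf_le hmem) (le_csInf ⟨2, hmem⟩ ?_)
    rintro w ⟨f, hf, rfl⟩
    exact two_le_weight h2 hf

end Pool.Agent.Helper58.Late.Ri2
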