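import Pool.Agent.Helper58.Late.Ri2

/-!
2-rainbow independent domination number two: edge counts (MP_821169_co).
-/

set_option linter.unusedSectionVars false
set_option linter.unusedVariables false

open Finset

namespace Pool.Agent.Helper58.Late.Ri2

/-- the connected stable graphs of order `n` with domination number `k` -/
def SS (n k : ℕ) : Set (SimpleGraph (Fin n)) :=
  {G | G.Connected ∧ gam G = k ∧ ∀ x, gam (G.induce {y | y ≠ x}) = gam G}

/-- the connected ER-critical graphs of order `n` with domination number `k` -/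
def EE (n k : ℕ) : Set (SimpleGraph (Fin n)) :=
  {G | G.Connected ∧ gam G = k ∧ ∀ e ∈ G.edgeSet, gam (G.deleteEdges {e}) ≠ gam G}

/-- the condition for `G - x` -/
def PX {n : ℕ} (G : SimpleGraph (Fin n)) (x : Fin n) : Prop :=
  ∃ u v, u ≠ x ∧ v ≠ x ∧ u ≠ v ∧ ∀ w, w ≠ x → w ≠ u → w ≠ v → G.Adj w u ∧ G.Adj w v

theorem gam_induce_iff {n : ℕ} (hn : 3 ≤ n) (G : SimpleGraph (Fin n)) (x : Fin n) :
    gam (G.induce {y | y ≠ x}) = 2 ↔ PX G x := by
  have hc : 2 ≤ Fintype.card ({y | y ≠ x} : Set (Fin n)) := by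
    have : Fintype.card ({y | y ≠ x} : Set (Fin n)) = n - 1 := by
      have h := Fintype.card_subtype_compl (fun y : Fin n => y = x)
      rw [Fintype.card_fin, Fintype.card_subtype_eq] at h
      exact (Fintype.card_congr (Equiv.refl _)).trans h
    omega
  rw [gam_eq_two_iff hc]
  constructor
  · rintro ⟨⟨u, hu⟩, ⟨v, hv⟩, huv, h⟩
    refine ⟨u, v, hu, hv, fun h0 => huv (Subtype.ext h0), fun w hwx hwu hwv => ?_⟩
    exact h ⟨w, hwx⟩ (fun h0 => hwu (congrArg Subtype.val h0)) fun h0 => hwv (congrArg Subtype.val h0)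
  · rintro ⟨u, v, hu, hv, huv, h⟩
    refine ⟨⟨u, hu⟩, ⟨v, hv⟩, fun h0 => huv (congrArg Subtype.val h0), ?_⟩
    rintro ⟨w, hwx⟩ hwu hwv
    exact h w hwx (fun h0 => hwu (Subtype.ext h0)) fun h0 => hwv (Subtype.ext h0)

theorem mem_SS {n : ℕ} (hn : 3 ≤ n) {G : SimpleGraph (Fin n)} :
    G ∈ SS n 2 ↔ G.Connected ∧ (∃ u v, PD G u v) ∧ ∀ x, PX G x := by
  have hc : 2 ≤ Fintype.card (Fin n) := by rw [Fintype.card_fin]; omega
  constructor
  · rintro ⟨h1, h2, h3⟩
    exact ⟨h1, (gam_eq_two_iff hc).1 h2, fun x => (gam_induce_iff hn G x).1 ((h3 x).trans h2)⟩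
  · rintro ⟨h1, h2, h3⟩
    have h2' := (gam_eq_two_iff hc).2 h2
    exact ⟨h1, h2', fun x => ((gam_induce_iff hn G x).2 (h3 x)).trans h2'.symm⟩

theorem conn_of_PD {n : ℕ} (hn : 3 ≤ n) {G : SimpleGraph (Fin n)} {u v : Fin n} (h : PD G u v) :
    G.Connected := by
  obtain ⟨w, hwu, hwv⟩ : ∃ w, w ≠ u ∧ w ≠ v := by
    by_contra h0
    push Not at h0
    have h1 : (univ : Finset (Fin n)) ⊆ {u, v} := by
      intro z _
      by_cases hz : z = u
      · simp [hz]
      · simp [h0 z hz]
    have h2 := card_le_card h1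
    rw [card_univ, Fintype.card_fin] at h2
    have := h2.trans card_le_two
    omega
  have key : ∀ x, G.Reachable x w := by
    intro x
    by_cases hxu : x = u
    · rw [hxu]; exact (h.2 w hwu hwv).1.symm.reachable
    · by_cases hxv : x = v
      · rw [hxv]; exact (h.2 w hwu hwv).2.symm.reachable
      · exact (h.2 x hxu hxv).1.reachable.trans (h.2 w hwu hwv).1.symm.reachable
  have : Nonempty (Fin n) := ⟨w⟩
  exact SimpleGraph.Connected.mk fun x y => (key x).trans (key y).symm

theorem ncard_edge {n : ℕ} (G : SimpleGraph (Fin n)) [DecidableRel G.Adj] :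
    2 * G.edgeSet.ncard = ∑ x, G.degree x := by
  rw [SimpleGraph.sum_degrees_eq_twice_card_edges]
  congr 1
  rw [Set.ncard_eq_toFinset_card']
  rfl

theorem le_deg {n : ℕ} (G : SimpleGraph (Fin n)) [DecidableRel G.Adj] {x : Fin n} (A : Finset (Fin n))
    (h : ∀ y ∈ A, G.Adj x y) : A.card ≤ G.degree x := by
  rw [← SimpleGraph.card_neighborFinset_eq_degree]
  exact card_le_card fun y hy => (SimpleGraph.mem_neighborFinset _ _ _).2 (h y hy)

theorem deg_le {n : ℕ} (G : SimpleGraph (Fin n)) [DecidableRel G.Adj] {x : Fin n} (A : Finset (Fin n))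
    (h : ∀ y, G.Adj x y → y ∈ A) : G.degree x ≤ A.card := by
  rw [← SimpleGraph.card_neighborFinset_eq_degree]
  exact card_le_card fun y hy => h y ((SimpleGraph.mem_neighborFinset _ _ _).1 hy)

theorem card_co {n : ℕ} (T : Finset (Fin n)) : (univ \ T).card = n - T.card := by
  rw [card_sdiff_of_subset (subset_univ T), card_univ, Fintype.card_fin]

theorem sum_ge {n : ℕ} (f : Fin n → ℕ) (T : Finset (Fin n)) (c : ℕ) (h : ∀ x, x ∉ T → c ≤ f x) :
    ∑ x ∈ T, f x + (n - T.card) * c ≤ ∑ x, f x := by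
  rw [← sum_sdiff (subset_univ T), add_comm]
  refine Nat.add_le_add_right ?_ _
  have := card_nsmul_le_sum (univ \ T) f c fun x hx => h x (mem_sdiff.1 hx).2
  rwa [card_co, smul_eq_mul] at this

theorem sum_le {n : ℕ} (f : Fin n → ℕ) (T : Finset (Fin n)) (c : ℕ) (h : ∀ x, x ∉ T → f x ≤ c) :
    ∑ x, f x ≤ ∑ x ∈ T, f x + (n - T.card) * c := by
  rw [← sum_sdiff (subset_univ T), add_comm]
  refine Nat.add_le_add_left ?_ _
  have := sum_le_card_nsmul (univ \ T) f c fun x hx => h x (mem_sdiff.1 hx).2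
  rwa [card_co, smul_eq_mul] at this

theorem co_deg {n : ℕ} (G : SimpleGraph (Fin n)) [DecidableRel G.Adj] {x z : Fin n} (hxz : x ≠ z)
    (h : ∀ y, y ≠ x → y ≠ z → G.Adj x y) : n - 2 ≤ G.degree x := by
  have h1 := le_deg G (x := x) (univ \ {x, z}) fun y hy => by
    rw [mem_sdiff, mem_insert, mem_singleton, not_or] at hy
    exact h y hy.2.1 hy.2.2
  rwa [card_co, card_pair hxz] at h1

/-- the lower bound -/
theorem lower {n : ℕ} (hn : 3 ≤ n) {G : SimpleGraph (Fin n)} (hG : G ∈ SS n 2) :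
    3 * n - 7 ≤ G.edgeSet.ncard ∨ (4 ≤ n ∧ 4 * n - 12 ≤ G.edgeSet.ncard) := by
  classical
  obtain ⟨-, ⟨u, v, huv, h⟩, hx⟩ := (mem_SS hn).1 hG
  have hE := ncard_edge G
  have du : n - 2 ≤ G.degree u := co_deg G huv fun y h1 h2 => (h y h1 h2).1.symm
  have dv : n - 2 ≤ G.degree v := co_deg G huv.symm fun y h1 h2 => (h y h2 h1).2.symm
  -- the case of a pair w, v
  have caseA : ∀ w, w ≠ u → w ≠ v → (∀ y, y ≠ u → y ≠ w → y ≠ v → G.Adj y w) → 3 * n - 7 ≤ G.edgeSet.ncard := by
    intro w hwu hwv hw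
    have dw : n - 1 ≤ G.degree w := by
      have h1 := le_deg G (x := w) (univ \ {w}) fun y hy => by
        rw [mem_sdiff, mem_singleton] at hy
        by_cases h1 : y = u
        · rw [h1]; exact (h w hwu hwv).1
        · by_cases h2 : y = v
          · rw [h2]; exact (h w hwu hwv).2
          · exact (hw y h1 hy.2 h2).symm
      rwa [card_co, card_singleton] at h1
    have h3 : ({u, v, w} : Finset (Fin n)).card = 3 := by
      rw [card_insert_of_notMem, card_pair hwv.symm]
      rw [mem_insert, mem_singleton, not_or]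
      exact ⟨huv, hwu.symm⟩
    have hs := sum_ge (fun x => G.degree x) {u, v, w} 3 fun x hx => by
      rw [mem_insert, mem_insert, mem_singleton, not_or, not_or] at hx
      have h1 := le_deg G (x := x) {u, v, w} fun y hy => by
        rw [mem_insert, mem_insert, mem_singleton] at hy
        rcases hy with rfl | rfl | rfl
        · exact (h x hx.1 hx.2.1).1
        · exact (h x hx.1 hx.2.1).2
        · exact hw x hx.1 hx.2.2 hx.2.1
      rwa [h3] at h1
    rw [h3, sum_insert (by rw [mem_insert, mem_singleton, not_or]; exact ⟨huv, hwu.symm⟩),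
      sum_insert (by rw [mem_singleton]; exact hwv.symm), sum_singleton] at hs
    omega
  obtain ⟨w, w', hwu, hw'u, hww, hw⟩ := hx u
  by_cases h1 : w = v
  · left
    subst h1
    exact caseA w' hw'u hww.symm fun y a b c => (hw y a c b).2
  by_cases h2 : w' = v
  · left
    subst h2
    exact caseA w hwu hww fun y a b c => (hw y a b c).1
  right
  have dw : n - 2 ≤ G.degree w := co_deg G hww fun y a b => by
    by_cases h3 : y = u
    · rw [h3]; exact (h w hwu h1).1
    · exact (hw y h3 a b).1.symm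
  have dw' : n - 2 ≤ G.degree w' := co_deg G hww.symm fun y a b => by
    by_cases h3 : y = u
    · rw [h3]; exact (h w' hw'u h2).1
    · exact (hw y h3 b a).2.symm
  have n1 : w ∉ ({w'} : Finset (Fin n)) := by rw [mem_singleton]; exact hww
  have n2 : v ∉ ({w, w'} : Finset (Fin n)) := by
    rw [mem_insert, mem_singleton, not_or]; exact ⟨fun h => h1 h.symm, fun h => h2 h.symm⟩
  have n3 : u ∉ ({v, w, w'} : Finset (Fin n)) := by
    rw [mem_insert, mem_insert, mem_singleton, not_or, not_or]; exact ⟨huv, hwu.symm, hw'u.symm⟩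
  have h4 : ({u, v, w, w'} : Finset (Fin n)).card = 4 := by
    rw [card_insert_of_notMem n3, card_insert_of_notMem n2, card_insert_of_notMem n1, card_singleton]
  have hn4 : 4 ≤ n := by
    have := card_le_univ ({u, v, w, w'} : Finset (Fin n))
    rwa [h4, Fintype.card_fin] at this
  refine ⟨hn4, ?_⟩
  have hs := sum_ge (fun x => G.degree x) {u, v, w, w'} 4 fun x hx => by
    rw [mem_insert, mem_insert, mem_insert, mem_singleton, not_or, not_or, not_or] at hx
    have h1 := le_deg G (x := x) {u, v, w, w'} fun y hy => by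
      rw [mem_insert, mem_insert, mem_insert, mem_singleton] at hy
      rcases hy with rfl | rfl | rfl | rfl
      · exact (h x hx.1 hx.2.1).1
      · exact (h x hx.1 hx.2.1).2
      · exact (hw x hx.1 hx.2.2.1 hx.2.2.2).1
      · exact (hw x hx.1 hx.2.2.1 hx.2.2.2).2
    rwa [h4] at h1
  rw [h4, sum_insert n3, sum_insert n2, sum_insert n1, sum_singleton] at hs
  omega

end Pool.Agent.Helper58.Late.Ri2
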