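import Pool.Agent.Helper58.Late.Ri2B

/-!
2-rainbow independent domination number two: the extremal graphs (MP_821169_co).
-/

set_option linter.unusedSectionVars false
set_option linter.unusedVariables false

open Finset

namespace Pool.Agent.Helper58.Late.Ri2

/-- the complete graph -/
theorem top_mem {n : ℕ} (hn : 3 ≤ n) : (⊤ : SimpleGraph (Fin n)) ∈ SS n 2 := by
  have hPD : ∃ u v, PD (⊤ : SimpleGraph (Fin n)) u v :=
    ⟨⟨0, by omega⟩, ⟨1, by omega⟩, by simp [Fin.ext_iff], fun w h1 h2 => ⟨h1, h2⟩⟩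
  refine (mem_SS hn).2 ⟨?_, hPD, fun x => ?_⟩
  · obtain ⟨u, v, h⟩ := hPD
    exact conn_of_PD hn h
  · obtain ⟨u, hu⟩ : ∃ u : Fin n, u ≠ x := by
      by_contra h0
      push Not at h0
      have h1 := (h0 ⟨0, by omega⟩).trans (h0 ⟨1, by omega⟩).symm
      simp [Fin.ext_iff] at h1
    obtain ⟨v, hv⟩ : ∃ v : Fin n, v ∉ ({x, u} : Finset (Fin n)) := by
      by_contra h0
      push Not at h0
      have h1 := card_le_card (show (univ : Finset (Fin n)) ⊆ {x, u} from fun z _ => h0 z)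
      rw [card_univ, Fintype.card_fin] at h1
      have := h1.trans card_le_two
      omega
    rw [mem_insert, mem_singleton, not_or] at hv
    exact ⟨u, v, hu, hv.1, fun h => hv.2 h.symm, fun w h1 h2 h3 => ⟨h2, h3⟩⟩

theorem ncard_top {n : ℕ} : (⊤ : SimpleGraph (Fin n)).edgeSet.ncard = n.choose 2 := by
  classical
  rw [Set.ncard_eq_toFinset_card']
  have := SimpleGraph.card_edgeFinset_top_eq_card_choose_two (V := Fin n)
  rw [Fintype.card_fin] at this
  rw [← this]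
  congr 1

theorem ncard_le {n : ℕ} (G : SimpleGraph (Fin n)) : G.edgeSet.ncard ≤ n.choose 2 := by
  rw [← ncard_top]
  exact Set.ncard_le_ncard (SimpleGraph.edgeSet_mono le_top) (Set.toFinite _)

/-- the extremal stable graph: `0`, `1` are adjacent to all others but not to each other, `2` is adjacent to all -/
def HH (n : ℕ) : SimpleGraph (Fin n) where
  Adj x y := x ≠ y ∧ ((x : ℕ) < 3 ∨ (y : ℕ) < 3) ∧ ¬ ((x : ℕ) < 2 ∧ (y : ℕ) < 2)
  symm := ⟨fun x y h => ⟨h.1.symm, h.2.1.symm, fun h0 => h.2.2 h0.symm⟩⟩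
  loopless := ⟨fun x h => h.1 rfl⟩

instance (n : ℕ) : DecidableRel (HH n).Adj := fun x y => by unfold HH; infer_instance

theorem HH_mem {n : ℕ} (hn : 3 ≤ n) : HH n ∈ SS n 2 := by
  have a0 : (0 : ℕ) < n := by omega
  have a1 : (1 : ℕ) < n := by omega
  have a2 : (2 : ℕ) < n := by omega
  have hPD : PD (HH n) ⟨0, a0⟩ ⟨1, a1⟩ := by
    refine ⟨by simp [Fin.ext_iff], fun w h1 h2 => ?_⟩
    have b1 : (w : ℕ) ≠ 0 := fun h => h1 (Fin.ext h)
    have b2 : (w : ℕ) ≠ 1 := fun h => h2 (Fin.ext h)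
    exact ⟨⟨h1, Or.inr (by simp), by simp only; omega⟩, ⟨h2, Or.inr (by simp), by simp only; omega⟩⟩
  refine (mem_SS hn).2 ⟨conn_of_PD hn hPD, ⟨_, _, hPD⟩, fun x => ?_⟩
  have hz : ∀ (z w : Fin n), (z : ℕ) < 2 → w ≠ z → ¬ (w : ℕ) < 2 → (HH n).Adj w z := fun z w h1 h2 h3 =>
    ⟨h2, Or.inr (by omega), fun h => h3 h.1⟩
  have h2 : ∀ w : Fin n, w ≠ ⟨2, a2⟩ → (HH n).Adj w ⟨2, a2⟩ := fun w h =>
    ⟨h, Or.inr (by simp), by simp only; omega⟩
  by_cases hx0 : (x : ℕ) = 0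
  · refine ⟨⟨1, a1⟩, ⟨2, a2⟩, ?_, ?_, by simp [Fin.ext_iff], fun w c1 c2 c3 => ⟨hz _ w (by simp) c2 ?_, h2 w c3⟩⟩
    · intro h; rw [← h] at hx0; simp at hx0
    · intro h; rw [← h] at hx0; simp at hx0
    · have b1 : (w : ℕ) ≠ x := fun h => c1 (Fin.ext h)
      have b2 : (w : ℕ) ≠ 1 := fun h => c2 (Fin.ext h)
      omega
  · by_cases hx1 : (x : ℕ) = 1
    · refine ⟨⟨0, a0⟩, ⟨2, a2⟩, ?_, ?_, by simp [Fin.ext_iff], fun w c1 c2 c3 => ⟨hz _ w (by simp) c2 ?_, h2 w c3⟩⟩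
      · intro h; rw [← h] at hx1; simp at hx1
      · intro h; rw [← h] at hx1; simp at hx1
      · have b1 : (w : ℕ) ≠ x := fun h => c1 (Fin.ext h)
        have b2 : (w : ℕ) ≠ 0 := fun h => c2 (Fin.ext h)
        omega
    · refine ⟨⟨0, a0⟩, ⟨1, a1⟩, ?_, ?_, hPD.1, fun w c1 c2 c3 => hPD.2 w c2 c3⟩
      · intro h; rw [← h] at hx0; simp at hx0
      · intro h; rw [← h] at hx1; simp at hx1

theorem HH_ncard {n : ℕ} (hn : 3 ≤ n) : (HH n).edgeSet.ncard ≤ 3 * n - 7 := by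
  have a0 : (0 : ℕ) < n := by omega
  have a1 : (1 : ℕ) < n := by omega
  have a2 : (2 : ℕ) < n := by omega
  have hE := ncard_edge (HH n)
  obtain ⟨p0, hp0⟩ : ∃ p : Fin n, p = ⟨0, a0⟩ := ⟨_, rfl⟩
  obtain ⟨p1, hp1⟩ : ∃ p : Fin n, p = ⟨1, a1⟩ := ⟨_, rfl⟩
  obtain ⟨p2, hp2⟩ : ∃ p : Fin n, p = ⟨2, a2⟩ := ⟨_, rfl⟩
  have v0 : (p0 : ℕ) = 0 := by rw [hp0]
  have v1 : (p1 : ℕ) = 1 := by rw [hp1]
  have v2 : (p2 : ℕ) = 2 := by rw [hp2]
  have e01 : p0 ≠ p1 := fun h => by rw [h, v1] at v0; omega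
  have e02 : p0 ≠ p2 := fun h => by rw [h, v2] at v0; omega
  have e12 : p1 ≠ p2 := fun h => by rw [h, v2] at v1; omega
  have d0 : (HH n).degree p0 ≤ n - 2 := by
    have := deg_le (HH n) (x := p0) (univ \ {p0, p1}) fun y hy => by
      rw [mem_sdiff, mem_insert, mem_singleton, not_or]
      refine ⟨mem_univ _, hy.1.symm, fun h => hy.2.2 ⟨by omega, by rw [h]; omega⟩⟩
    rwa [card_co, card_pair e01] at this
  have d1 : (HH n).degree p1 ≤ n - 2 := by
    have := deg_le (HH n) (x := p1) (univ \ {p0, p1}) fun y hy => by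
      rw [mem_sdiff, mem_insert, mem_singleton, not_or]
      refine ⟨mem_univ _, fun h => hy.2.2 ⟨by omega, by rw [h]; omega⟩, hy.1.symm⟩
    rwa [card_co, card_pair e01] at this
  have d2 : (HH n).degree p2 ≤ n - 1 := by
    have := deg_le (HH n) (x := p2) (univ \ {p2}) fun y hy => by
      rw [mem_sdiff, mem_singleton]
      exact ⟨mem_univ _, hy.1.symm⟩
    rwa [card_co, card_singleton] at this
  have n2 : p1 ∉ ({p2} : Finset (Fin n)) := by rw [mem_singleton]; exact e12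
  have n1 : p0 ∉ ({p1, p2} : Finset (Fin n)) := by rw [mem_insert, mem_singleton, not_or]; exact ⟨e01, e02⟩
  have h3 : ({p0, p1, p2} : Finset (Fin n)).card = 3 := by
    rw [card_insert_of_notMem n1, card_insert_of_notMem n2, card_singleton]
  have hs := sum_le (fun x => (HH n).degree x) {p0, p1, p2} 3 fun x hx => by
    rw [mem_insert, mem_insert, mem_singleton, not_or, not_or] at hx
    have c0 : (x : ℕ) ≠ 0 := fun h => hx.1 (Fin.ext (by omega))
    have c1 : (x : ℕ) ≠ 1 := fun h => hx.2.1 (Fin.ext (by omega))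
    have c2 : (x : ℕ) ≠ 2 := fun h => hx.2.2 (Fin.ext (by omega))
    have := deg_le (HH n) (x := x) {p0, p1, p2} fun y hy => by
      have h4 : (y : ℕ) < 3 := by
        rcases hy.2.1 with h | h
        · omega
        · exact h
      rw [mem_insert, mem_insert, mem_singleton]
      have h5 : (y : ℕ) = 0 ∨ (y : ℕ) = 1 ∨ (y : ℕ) = 2 := by omega
      rcases h5 with h | h | h
      · exact Or.inl (Fin.ext (by omega))
      · exact Or.inr (Or.inl (Fin.ext (by omega)))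
      · exact Or.inr (Or.inr (Fin.ext (by omega)))
    rwa [h3] at this
  rw [h3, sum_insert n1, sum_insert n2, sum_singleton] at hs
  omega

/-- the cycle of length four -/
def C4 : SimpleGraph (Fin 4) where
  Adj x y := (x : ℕ) % 2 ≠ (y : ℕ) % 2
  symm := ⟨fun x y h => h.symm⟩
  loopless := ⟨fun x h => h rfl⟩

instance : DecidableRel C4.Adj := fun x y => by unfold C4; infer_instance

theorem C4_mem : C4 ∈ SS 4 2 := by
  have hPD : PD C4 0 2 := by
    refine ⟨by decide, ?_⟩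
    decide
  refine (mem_SS (by norm_num)).2 ⟨conn_of_PD (by norm_num) hPD, ⟨_, _, hPD⟩, ?_⟩
  unfold PX
  decide

theorem C4_ncard : C4.edgeSet.ncard = 4 := by
  have h := ncard_edge C4
  have h2 : ∑ x, C4.degree x = 8 := by decide
  omega

/-! ### ER-critical graphs -/

/-- the complete bipartite graph with the parts `{0, 1}` and the rest -/
def KK (n : ℕ) : SimpleGraph (Fin n) where
  Adj x y := ((x : ℕ) < 2 ∧ 2 ≤ (y : ℕ)) ∨ ((y : ℕ) < 2 ∧ 2 ≤ (x : ℕ))
  symm := ⟨fun x y h => h.symm⟩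
  loopless := ⟨fun x h => by omega⟩

theorem mem_EE {n : ℕ} (hn : 2 ≤ n) {G : SimpleGraph (Fin n)} :
    G ∈ EE n 2 ↔ G.Connected ∧ (∃ u v, PD G u v) ∧ ∀ e ∈ G.edgeSet, ¬ ∃ u v, PD (G.deleteEdges {e}) u v := by
  have hc : 2 ≤ Fintype.card (Fin n) := by rw [Fintype.card_fin]; omega
  constructor
  · rintro ⟨h1, h2, h3⟩
    refine ⟨h1, (gam_eq_two_iff hc).1 h2, fun e he h => h3 e he ?_⟩
    rw [h2]
    exact (gam_eq_two_iff hc).2 h
  · rintro ⟨h1, h2, h3⟩
    refine ⟨h1, (gam_eq_two_iff hc).2 h2, fun e he h => h3 e he ?_⟩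
    rw [(gam_eq_two_iff hc).2 h2] at h
    exact (gam_eq_two_iff hc).1 h

theorem KK_mem {n : ℕ} (hn : 3 ≤ n) : KK n ∈ EE n 2 := by
  have a0 : (0 : ℕ) < n := by omega
  have a1 : (1 : ℕ) < n := by omega
  have hPD : PD (KK n) ⟨0, a0⟩ ⟨1, a1⟩ := by
    refine ⟨by simp [Fin.ext_iff], fun w h1 h2 => ?_⟩
    have b1 : (w : ℕ) ≠ 0 := fun h => h1 (Fin.ext h)
    have b2 : (w : ℕ) ≠ 1 := fun h => h2 (Fin.ext h)
    exact ⟨Or.inr ⟨by simp, by omega⟩, Or.inr ⟨by simp, by omega⟩⟩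
  refine (mem_EE (by omega)).2 ⟨conn_of_PD hn hPD, ⟨_, _, hPD⟩, ?_⟩
  intro e he
  induction e using Sym2.ind with
  | _ a b =>
  rintro ⟨p, q, hpq, h⟩
  have hab : (KK n).Adj a b := he
  have hD : ∀ x y, ((KK n).deleteEdges {s(a, b)}).Adj x y →
      (KK n).Adj x y ∧ ¬ (x = a ∧ y = b) ∧ ¬ (x = b ∧ y = a) := by
    intro x y hxy
    rw [SimpleGraph.deleteEdges_adj, Set.mem_singleton_iff, Sym2.eq_iff, not_or] at hxy
    exact ⟨hxy.1, hxy.2.1, hxy.2.2⟩
  have key : ∀ w, w ≠ p → w ≠ q → (((w : ℕ) < 2 ∧ 2 ≤ (p : ℕ) ∧ 2 ≤ (q : ℕ)) ∨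
      (2 ≤ (w : ℕ) ∧ (p : ℕ) < 2 ∧ (q : ℕ) < 2)) ∧
      ¬ (w = a ∧ p = b) ∧ ¬ (w = b ∧ p = a) ∧ ¬ (w = a ∧ q = b) ∧ ¬ (w = b ∧ q = a) := by
    intro w h1 h2
    obtain ⟨h3, h4⟩ := h w h1 h2
    obtain ⟨c1, c2, c3⟩ := hD _ _ h3
    obtain ⟨d1, d2, d3⟩ := hD _ _ h4
    refine ⟨?_, c2, c3, d2, d3⟩
    change ((w : ℕ) < 2 ∧ 2 ≤ (p : ℕ)) ∨ ((p : ℕ) < 2 ∧ 2 ≤ (w : ℕ)) at c1
    change ((w : ℕ) < 2 ∧ 2 ≤ (q : ℕ)) ∨ ((q : ℕ) < 2 ∧ 2 ≤ (w : ℕ)) at d1
    omega
  have hab' : ((a : ℕ) < 2 ∧ 2 ≤ (b : ℕ)) ∨ ((b : ℕ) < 2 ∧ 2 ≤ (a : ℕ)) := hab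
  have hne : a ≠ b := hab.ne
  -- both endpoints of the deleted edge
  by_cases ea : a = p ∨ a = q
  · by_cases eb : b = p ∨ b = q
    · -- the pair is {a, b}: take a third vertex
      obtain ⟨w, hw⟩ : ∃ w : Fin n, w ∉ ({a, b} : Finset (Fin n)) := by
        by_contra h0
        push Not at h0
        have h1 := card_le_card (show (univ : Finset (Fin n)) ⊆ {a, b} from fun z _ => h0 z)
        rw [card_univ, Fintype.card_fin] at h1
        have := h1.trans card_le_two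
        omega
      rw [mem_insert, mem_singleton, not_or] at hw
      have hwp : w ≠ p := by
        rintro rfl
        rcases ea with rfl | rfl
        · exact hw.1 rfl
        · rcases eb with rfl | rfl
          · exact hw.2 rfl
          · exact hne rfl
      have hwq : w ≠ q := by
        rintro rfl
        rcases ea with rfl | rfl
        · rcases eb with rfl | rfl
          · exact hne rfl
          · exact hw.2 rfl
        · exact hw.1 rfl
      have := (key w hwp hwq).1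
      rcases ea with rfl | rfl <;> rcases eb with rfl | rfl <;> omega
    · push Not at eb
      obtain ⟨-, k1, k2, k3, k4⟩ := key b eb.1 eb.2
      rcases ea with rfl | rfl
      · exact k2 ⟨rfl, rfl⟩
      · exact k4 ⟨rfl, rfl⟩
  · push Not at ea
    obtain ⟨k0, k1, k2, k3, k4⟩ := key a ea.1 ea.2
    by_cases eb : b = p ∨ b = q
    · rcases eb with rfl | rfl
      · exact k1 ⟨rfl, rfl⟩
      · exact k3 ⟨rfl, rfl⟩
    · push Not at eb
      have l0 := (key b eb.1 eb.2).1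
      omega

theorem EE_ncard {n : ℕ} (hn : 3 ≤ n) {G : SimpleGraph (Fin n)} (hG : G ∈ EE n 2) :
    G.edgeSet.ncard = 2 * n - 4 := by
  classical
  obtain ⟨-, ⟨u, v, huv, h⟩, hcr⟩ := (mem_EE (by omega)).1 hG
  -- every edge joins `u` or `v` with a third vertex
  have key : ∀ x y, G.Adj x y → ((x = u ∨ x = v) ∧ y ≠ u ∧ y ≠ v) ∨ ((y = u ∨ y = v) ∧ x ≠ u ∧ x ≠ v) := by
    intro x y hxy
    by_contra hcon
    apply hcr s(x, y) hxy
    refine ⟨u, v, huv, fun w h1 h2 => ?_⟩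
    rw [SimpleGraph.deleteEdges_adj, SimpleGraph.deleteEdges_adj, Set.mem_singleton_iff,
      Set.mem_singleton_iff, Sym2.eq_iff, Sym2.eq_iff]
    refine ⟨⟨(h w h1 h2).1, fun h0 => hcon ?_⟩, ⟨(h w h1 h2).2, fun h0 => hcon ?_⟩⟩
    · rcases h0 with ⟨rfl, rfl⟩ | ⟨rfl, rfl⟩
      · exact Or.inr ⟨Or.inl rfl, h1, h2⟩
      · exact Or.inl ⟨Or.inl rfl, h1, h2⟩
    · rcases h0 with ⟨rfl, rfl⟩ | ⟨rfl, rfl⟩
      · exact Or.inr ⟨Or.inr rfl, h1, h2⟩
      · exact Or.inl ⟨Or.inr rfl, h1, h2⟩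
  have hE := ncard_edge G
  have du : G.degree u = n - 2 := by
    apply le_antisymm
    · have := deg_le G (x := u) (univ \ {u, v}) fun y hy => by
        rw [mem_sdiff, mem_insert, mem_singleton, not_or]
        rcases key u y hy with h0 | h0
        · exact ⟨mem_univ _, h0.2⟩
        · exact absurd rfl h0.2.1
      rwa [card_co, card_pair huv] at this
    · exact co_deg G huv fun y h1 h2 => (h y h1 h2).1.symm
  have dv : G.degree v = n - 2 := by
    apply le_antisymm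
    · have := deg_le G (x := v) (univ \ {u, v}) fun y hy => by
        rw [mem_sdiff, mem_insert, mem_singleton, not_or]
        rcases key v y hy with h0 | h0
        · exact ⟨mem_univ _, h0.2⟩
        · exact absurd rfl h0.2.2
      rwa [card_co, card_pair huv] at this
    · exact co_deg G huv.symm fun y h1 h2 => (h y h2 h1).2.symm
  have dx : ∀ x, x ∉ ({u, v} : Finset (Fin n)) → G.degree x = 2 := by
    intro x hx
    rw [mem_insert, mem_singleton, not_or] at hx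
    apply le_antisymm
    · have := deg_le G (x := x) {u, v} fun y hy => by
        rw [mem_insert, mem_singleton]
        rcases key x y hy with h0 | h0
        · rcases h0.1 with h1 | h1
          · exact absurd h1 hx.1
          · exact absurd h1 hx.2
        · exact h0.1
      rwa [card_pair huv] at this
    · have := le_deg G (x := x) {u, v} fun y hy => by
        rw [mem_insert, mem_singleton] at hy
        rcases hy with rfl | rfl
        · exact (h x hx.1 hx.2).1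
        · exact (h x hx.1 hx.2).2
      rwa [card_pair huv] at this
  have hs1 := sum_ge (fun x => G.degree x) {u, v} 2 fun x hx => (dx x hx).ge
  have hs2 := sum_le (fun x => G.degree x) {u, v} 2 fun x hx => (dx x hx).le
  rw [card_pair huv, sum_pair huv] at hs1 hs2
  omega

/-! ### small orders -/

theorem gam_le_card {n : ℕ} (hn : n ≤ 1) (G : SimpleGraph (Fin n)) : gam G ≠ 2 := by
  intro h
  have hne : {w | ∃ f : Fin n → Fin 3, IsRi2 G f ∧ weight f = w}.Nonempty := by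
    by_contra h0
    rw [Set.not_nonempty_iff_eq_empty] at h0
    unfold gam at h
    rw [h0, Nat.sInf_empty] at h
    exact absurd h (by decide)
  obtain ⟨f, hf, hw⟩ := Nat.sInf_mem hne
  have hw2 : weight f = 2 := by rw [hw]; exact h
  have : weight f ≤ n := by
    unfold weight
    exact (card_le_univ _).trans (by rw [Fintype.card_fin])
  omega

theorem SS_small {n : ℕ} (hn : n ≤ 2) : SS n 2 = ∅ := by
  rw [Set.eq_empty_iff_forall_notMem]
  rintro G ⟨h1, h2, h3⟩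
  rcases Nat.lt_or_ge n 2 with h | h
  · exact gam_le_card (by omega) G h2
  obtain rfl : n = 2 := by omega
  have h4 := (h3 0).trans h2
  have hne : {w | ∃ f : ({y | y ≠ (0 : Fin 2)} : Set (Fin 2)) → Fin 3,
      IsRi2 (G.induce {y | y ≠ (0 : Fin 2)}) f ∧ weight f = w}.Nonempty := by
    by_contra h0
    rw [Set.not_nonempty_iff_eq_empty] at h0
    unfold gam at h4
    rw [h0, Nat.sInf_empty] at h4
    exact absurd h4 (by decide)
  obtain ⟨f, hf, hw⟩ := Nat.sInf_mem hne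
  have hw2 : weight f = 2 := by rw [hw]; exact h4
  have : weight f ≤ 1 := by
    unfold weight
    refine (card_le_univ _).trans ?_
    decide
  omega

theorem EE_small {n : ℕ} (hn : n ≤ 2) : EE n 2 = ∅ := by
  rw [Set.eq_empty_iff_forall_notMem]
  intro G hG
  rcases Nat.lt_or_ge n 2 with h | h
  · exact gam_le_card (by omega) G hG.2.1
  obtain rfl : n = 2 := by omega
  obtain ⟨h1, -, h3⟩ := (mem_EE le_rfl).1 hG
  have hadj : G.Adj 0 1 := by
    obtain ⟨w⟩ := h1.preconnected 0 1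
    cases w with
    | @cons _ b _ hab _ =>
      have : b = 1 := by
        by_contra h0
        have : b = 0 := by omega
        rw [this] at hab
        exact G.loopless.irrefl _ hab
      rwa [this] at hab
  refine h3 s(0, 1) hadj ⟨0, 1, by decide, fun w h4 h5 => ?_⟩
  exfalso
  omega

end Pool.Agent.Helper58.Late.Ri2
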