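import Pool.Agent.Helper58.Late.Ri2B

/-!
2-rainbow independent domination: the minimum number of edges of the ER-critical graphs (MP_821169_co).
-/

set_option linter.unusedSectionVars false
set_option linter.unusedVariables false

open Finset

namespace Pool.Agent.Helper58.Late.Ri2

theorem gam_le {V : Type} [Fintype V] [DecidableEq V] {G : SimpleGraph V} {f : V → Fin 3} (hf : IsRi2 G f) :
    gam G ≤ weight f := Nat.sInf_le ⟨f, hf, rfl⟩

theorem exists_min {V : Type} [Fintype V] [DecidableEq V] {G : SimpleGraph V} {k : ℕ} (hk : 0 < k)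
    (h : gam G = k) : ∃ f, IsRi2 G f ∧ weight f = k := by
  have hne : {w | ∃ f : V → Fin 3, IsRi2 G f ∧ weight f = w}.Nonempty := by
    by_contra h0
    rw [Set.not_nonempty_iff_eq_empty] at h0
    unfold gam at h
    rw [h0, Nat.sInf_empty] at h
    omega
  obtain ⟨f, hf, hw⟩ := Nat.sInf_mem hne
  exact ⟨f, hf, by rw [hw]; exact h⟩

/-- a graph of order `n` with domination number `k` has at least `2 (n - k)` edges -/
theorem edges_ge {n k : ℕ} (hk : 0 < k) {G : SimpleGraph (Fin n)} (h : gam G = k) :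
    2 * (n - k) ≤ G.edgeSet.ncard := by
  classical
  obtain ⟨f, hf, hw⟩ := exists_min hk h
  choose a ha ha1 using fun u : {u : Fin n // f u = 0} => (hf.2.2 u.1 u.2).1
  choose b hb hb1 using fun u : {u : Fin n // f u = 0} => (hf.2.2 u.1 u.2).2
  let F : {u : Fin n // f u = 0} × Bool → G.edgeSet := fun p =>
    if p.2 then ⟨s(p.1.1, a p.1), ha p.1⟩ else ⟨s(p.1.1, b p.1), hb p.1⟩
  have hF : Function.Injective F := by
    rintro ⟨⟨x, hx⟩, i⟩ ⟨⟨y, hy⟩, j⟩ hxy
    have hax := ha1 ⟨x, hx⟩
    have hay := ha1 ⟨y, hy⟩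
    have hbx := hb1 ⟨x, hx⟩
    have hby := hb1 ⟨y, hy⟩
    cases i <;> cases j <;> simp only [F, if_true, if_false, Bool.false_eq_true, Subtype.mk.injEq, Sym2.eq_iff] at hxy
    · rcases hxy with ⟨h1, h2⟩ | ⟨h1, h2⟩
      · subst h1; rfl
      · rw [← h1] at hby; rw [hx] at hby; exact absurd hby (by decide)
    · rcases hxy with ⟨h1, h2⟩ | ⟨h1, h2⟩
      · rw [h2, hay] at hbx; exact absurd hbx (by decide)
      · rw [← h1] at hay; rw [hx] at hay; exact absurd hay (by decide)
    · rcases hxy with ⟨h1, h2⟩ | ⟨h1, h2⟩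
      · rw [h2, hby] at hax; exact absurd hax (by decide)
      · rw [← h1] at hby; rw [hx] at hby; exact absurd hby (by decide)
    · rcases hxy with ⟨h1, h2⟩ | ⟨h1, h2⟩
      · subst h1; rfl
      · rw [← h1] at hay; rw [hx] at hay; exact absurd hay (by decide)
  have hc := Fintype.card_le_of_injective F hF
  rw [Fintype.card_prod, Fintype.card_bool] at hc
  have e1 : Fintype.card G.edgeSet = G.edgeSet.ncard := by
    rw [Set.ncard_eq_toFinset_card', Set.toFinset_card]
  have e2 : Fintype.card {u : Fin n // f u = 0} = n - k := by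
    rw [Fintype.card_subtype]
    have h1 := card_filter_add_card_filter_not (s := (univ : Finset (Fin n))) (fun x => f x = 0)
    rw [card_univ, Fintype.card_fin] at h1
    have h2 : (univ.filter fun x => ¬ f x = 0).card = k := hw
    omega
  rw [e1, e2] at hc
  omega

/-- the left end of the edge with the index `j` -/
def le (k j : ℕ) : ℕ := if j < k - 1 then j else 0

/-- the subdivision of a path with `k` vertices whose first edge has been repeated -/
def PP (n k : ℕ) : SimpleGraph (Fin n) where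
  Adj x y := ((x : ℕ) < k ∧ k ≤ (y : ℕ) ∧ ((x : ℕ) = le k (y - k) ∨ (x : ℕ) = le k (y - k) + 1)) ∨
    ((y : ℕ) < k ∧ k ≤ (x : ℕ) ∧ ((y : ℕ) = le k (x - k) ∨ (y : ℕ) = le k (x - k) + 1))
  symm := ⟨fun x y h => h.symm⟩
  loopless := ⟨fun x h => by omega⟩

/-- a vertex with the value zero has two neighbours with different non-zero values -/
theorem zero_nb {n : ℕ} {G : SimpleGraph (Fin n)} {f : Fin n → Fin 3} (hf : IsRi2 G f) {u : Fin n} (h : f u = 0) :
    ∃ x y, x ≠ y ∧ G.Adj u x ∧ G.Adj u y ∧ f x ≠ 0 ∧ f y ≠ 0 := by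
  obtain ⟨⟨x, hx, hx1⟩, y, hy, hy1⟩ := hf.2.2 u h
  refine ⟨x, y, ?_, hx, hy, by rw [hx1]; decide, by rw [hy1]; decide⟩
  rintro rfl
  rw [hx1] at hy1
  exact absurd hy1 (by decide)

/-- in a subgraph of `PP n k` a subdivision vertex with a neighbour of value zero has a non-zero value -/
theorem sub_ne {n k : ℕ} {G : SimpleGraph (Fin n)} (hG : G ≤ PP n k) {f : Fin n → Fin 3} (hf : IsRi2 G f)
    {i s : Fin n} (hi : f i = 0) (hs : k ≤ (s : ℕ)) (h : G.Adj i s) : f s ≠ 0 := by
  intro h0
  obtain ⟨x, y, hxy, hx, hy, hx1, hy1⟩ := zero_nb hf h0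
  have c1 := hG hx
  have c2 := hG hy
  have c3 := hG h
  change _ ∨ _ at c1 c2 c3
  have e1 : i ≠ x := fun h => hx1 (h ▸ hi)
  have e2 : i ≠ y := fun h => hy1 (h ▸ hi)
  have f1 : (i : ℕ) ≠ x := fun h => e1 (Fin.ext h)
  have f2 : (i : ℕ) ≠ y := fun h => e2 (Fin.ext h)
  have f3 : (x : ℕ) ≠ y := fun h => hxy (Fin.ext h)
  omega

/-- a lower bound of the weight by an injective family of vertices with non-zero values -/
theorem card_ge {n m : ℕ} {f : Fin n → Fin 3} (g : Fin m → Fin n) (hg : Function.Injective g)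
    (h : ∀ i, f (g i) ≠ 0) : m ≤ weight f := by
  unfold weight
  calc m = (univ.image g).card := by rw [card_image_of_injective _ hg, card_univ, Fintype.card_fin]
    _ ≤ _ := card_le_card fun x hx => by
      obtain ⟨i, _, rfl⟩ := mem_image.1 hx
      exact mem_filter.2 ⟨mem_univ _, h i⟩

end Pool.Agent.Helper58.Late.Ri2
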