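import Pool.Agent.Helper58.Late.Ri2D

/-!
2-rainbow independent domination: the graphs `PP n k` (MP_821169_co).
-/

set_option linter.unusedSectionVars false
set_option linter.unusedVariables false

open Finset

namespace Pool.Agent.Helper58.Late.Ri2

theorem PP_adj {n k : ℕ} {x y : Fin n} (h1 : (x : ℕ) < k) (h2 : k ≤ (y : ℕ))
    (h3 : (x : ℕ) = le k (y - k) ∨ (x : ℕ) = le k (y - k) + 1) : (PP n k).Adj x y := Or.inl ⟨h1, h2, h3⟩

theorem le_lt {k : ℕ} (hk : 2 ≤ k) (j : ℕ) : le k j + 1 < k := by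
  unfold le
  split_ifs <;> omega

theorem PP_ncard_le {n k : ℕ} (hk : 2 ≤ k) (hn : k ≤ n) : (PP n k).edgeSet.ncard ≤ 2 * (n - k) := by
  classical
  let F : Fin (n - k) × Bool → Sym2 (Fin n) := fun p =>
    s(⟨le k p.1 + (if p.2 then 1 else 0), by have := le_lt hk (p.1 : ℕ); split_ifs <;> omega⟩,
      ⟨k + p.1, by have := p.1.2; omega⟩)
  have hsub : (PP n k).edgeSet ⊆ ((univ.image F : Finset (Sym2 (Fin n))) : Set (Sym2 (Fin n))) := by
    intro e he
    induction e using Sym2.ind with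
    | _ a b =>
    have key : ∀ x y : Fin n, (x : ℕ) < k → k ≤ (y : ℕ) → ((x : ℕ) = le k (y - k) ∨ (x : ℕ) = le k (y - k) + 1) →
        s(x, y) ∈ (univ.image F : Finset (Sym2 (Fin n))) := by
      intro x y h1 h2 h3
      rw [mem_image]
      have hy := y.2
      rcases h3 with h3 | h3
      · refine ⟨(⟨(y : ℕ) - k, by omega⟩, false), mem_univ _, Sym2.eq_iff.2 (Or.inl ⟨Fin.ext ?_, Fin.ext ?_⟩)⟩
        · change le k ((y : ℕ) - k) + 0 = (x : ℕ)
          omega
        · change k + ((y : ℕ) - k) = (y : ℕ)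
          omega
      · refine ⟨(⟨(y : ℕ) - k, by omega⟩, true), mem_univ _, Sym2.eq_iff.2 (Or.inl ⟨Fin.ext ?_, Fin.ext ?_⟩)⟩
        · change le k ((y : ℕ) - k) + 1 = (x : ℕ)
          omega
        · change k + ((y : ℕ) - k) = (y : ℕ)
          omega
    rcases (show (PP n k).Adj a b from he) with ⟨h1, h2, h3⟩ | ⟨h1, h2, h3⟩
    · exact key a b h1 h2 h3
    · rw [Sym2.eq_swap]
      exact key b a h1 h2 h3
  calc (PP n k).edgeSet.ncard ≤ ((univ.image F : Finset (Sym2 (Fin n))) : Set (Sym2 (Fin n))).ncard :=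
        Set.ncard_le_ncard hsub (Finset.finite_toSet _)
    _ = (univ.image F).card := Set.ncard_coe_finset _
    _ ≤ (univ : Finset (Fin (n - k) × Bool)).card := card_image_le
    _ = 2 * (n - k) := by
      rw [card_univ, Fintype.card_prod, Fintype.card_fin, Fintype.card_bool, mul_comm]

/-- the last vertex of the path is not zero -/
theorem last_ne {n k : ℕ} (hk : 3 ≤ k) {G : SimpleGraph (Fin n)} (hG : G ≤ PP n k) {f : Fin n → Fin 3}
    (hf : IsRi2 G f) {i : Fin n} (hi : (i : ℕ) = k - 1) : f i ≠ 0 := by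
  intro h0
  obtain ⟨x, y, hxy, hx, hy, -, -⟩ := zero_nb hf h0
  have c1 := hG hx
  have c2 := hG hy
  change _ ∨ _ at c1 c2
  have f3 : (x : ℕ) ≠ y := fun h => hxy (Fin.ext h)
  unfold le at c1 c2
  split_ifs at c1 c2 <;> omega

theorem PP_lower {n k : ℕ} (hk : 3 ≤ k) (hn : 2 * k - 1 ≤ n) {f : Fin n → Fin 3} (hf : IsRi2 (PP n k) f) :
    k ≤ weight f := by
  have h : ∀ i : Fin k, ∃ y : Fin n, f y ≠ 0 ∧ ((y : ℕ) = i ∨ ((i : ℕ) < k - 1 ∧ (y : ℕ) = k + i)) := by
    intro i
    have hi := i.2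
    by_cases h0 : f ⟨i, by omega⟩ = 0
    · have h1 : (i : ℕ) < k - 1 := by
        by_contra h2
        exact last_ne hk le_rfl hf (i := ⟨i, by omega⟩) (by simp only; omega) h0
      refine ⟨⟨k + i, by omega⟩, ?_, Or.inr ⟨h1, rfl⟩⟩
      refine sub_ne le_rfl hf h0 (by simp) (PP_adj (by simp) (by simp) (Or.inl ?_))
      unfold le
      simp only [Nat.add_sub_cancel_left]
      rw [if_pos h1]
    · exact ⟨_, h0, Or.inl rfl⟩
  choose g hg1 hg2 using h
  refine card_ge g (fun i j hij => ?_) hg1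
  have h1 := hg2 i
  have h2 := hg2 j
  rw [hij] at h1
  have := i.2
  have := j.2
  exact Fin.ext (by omega)

theorem PP_gam {n k : ℕ} (hk : 3 ≤ k) (hn : 2 * k - 1 ≤ n) : gam (PP n k) = k := by
  classical
  let f : Fin n → Fin 3 := fun i => if (i : ℕ) < k then (if (i : ℕ) % 2 = 0 then 1 else 2) else 0
  have f0 : ∀ i, f i ≠ 0 → (i : ℕ) < k := by
    intro i hi
    by_contra h
    exact hi (by simp only [f, if_neg h])
  have f1 : ∀ i : Fin n, (i : ℕ) < k → (i : ℕ) % 2 = 0 → f i = 1 := fun i h1 h2 => by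
    simp only [f, if_pos h1, if_pos h2]
  have f2 : ∀ i : Fin n, (i : ℕ) < k → (i : ℕ) % 2 ≠ 0 → f i = 2 := fun i h1 h2 => by
    simp only [f, if_pos h1, if_neg h2]
  have hf : IsRi2 (PP n k) f := by
    refine ⟨fun x y hx hy h => ?_, fun x y hx hy h => ?_, fun u hu => ?_⟩
    · have a1 := f0 x (by rw [hx]; decide)
      have a2 := f0 y (by rw [hy]; decide)
      change _ ∨ _ at h
      omega
    · have a1 := f0 x (by rw [hx]; decide)
      have a2 := f0 y (by rw [hy]; decide)
      change _ ∨ _ at h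
      omega
    · have hku : k ≤ (u : ℕ) := by
        by_contra h
        push Not at h
        by_cases h2 : (u : ℕ) % 2 = 0
        · rw [f1 u h h2] at hu; exact absurd hu (by decide)
        · rw [f2 u h h2] at hu; exact absurd hu (by decide)
      have hl := le_lt (by omega : 2 ≤ k) ((u : ℕ) - k)
      have A1 : (PP n k).Adj u ⟨le k (u - k), by omega⟩ := (PP_adj (by simp only; omega) hku (Or.inl rfl)).symm
      have A2 : (PP n k).Adj u ⟨le k (u - k) + 1, by omega⟩ := (PP_adj (by simp only; omega) hku (Or.inr rfl)).symm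
      by_cases h2 : le k (u - k) % 2 = 0
      · exact ⟨⟨_, A1, f1 _ (by simp only; omega) h2⟩, _, A2, f2 _ (by simp only; omega) (by simp only; omega)⟩
      · exact ⟨⟨_, A2, f1 _ (by simp only; omega) (by simp only; omega)⟩, _, A1, f2 _ (by simp only; omega) h2⟩
  refine le_antisymm ((gam_le hf).trans ?_) (le_csInf ⟨_, f, hf, rfl⟩ ?_)
  · unfold weight
    calc (univ.filter fun x => f x ≠ 0).card
        ≤ (Finset.image (fun i : Fin k => (⟨(i : ℕ), by have := i.2; omega⟩ : Fin n)) univ).card := by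
          refine card_le_card fun x hx => ?_
          rw [mem_filter] at hx
          exact mem_image.2 ⟨⟨x, f0 x hx.2⟩, mem_univ _, rfl⟩
      _ ≤ _ := card_image_le
      _ = k := by rw [card_univ, Fintype.card_fin]
  · rintro w ⟨g, hg, rfl⟩
    exact PP_lower hk hn hg

theorem PP_conn {n k : ℕ} (hk : 3 ≤ k) (hn : 2 * k - 1 ≤ n) : (PP n k).Connected := by
  have h0 : 0 < n := by omega
  have h1 : ∀ i : ℕ, ∀ hi : i < k, (PP n k).Reachable ⟨i, by omega⟩ ⟨0, h0⟩ := by
    intro i
    induction i with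
    | zero => intro _; exact SimpleGraph.Reachable.refl _
    | succ i ih =>
      intro hi
      have e1 : le k (k + i - k) = i := by
        unfold le
        rw [if_pos (by omega)]
        omega
      have A1 : (PP n k).Adj ⟨i + 1, by omega⟩ ⟨k + i, by omega⟩ :=
        PP_adj (by simp only; omega) (by simp) (Or.inr (by simp only; omega))
      have A2 : (PP n k).Adj ⟨i, by omega⟩ ⟨k + i, by omega⟩ :=
        PP_adj (by simp only; omega) (by simp) (Or.inl (by simp only; omega))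
      exact A1.reachable.trans (A2.symm.reachable.trans (ih (by omega)))
  have h2 : ∀ x : Fin n, (PP n k).Reachable x ⟨0, h0⟩ := by
    intro x
    by_cases hx : (x : ℕ) < k
    · exact h1 x hx
    · have hl := le_lt (by omega : 2 ≤ k) ((x : ℕ) - k)
      have A : (PP n k).Adj ⟨le k (x - k), by omega⟩ x := PP_adj (by simp only; omega) (by omega) (Or.inl rfl)
      exact A.symm.reachable.trans (h1 _ (by omega))
  have : Nonempty (Fin n) := ⟨⟨0, h0⟩⟩
  exact SimpleGraph.Connected.mk fun x y => (h2 x).trans (h2 y).symm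

theorem PP_crit {n k : ℕ} (hk : 3 ≤ k) (hn : 2 * k - 1 ≤ n) {a w : Fin n} (ha : (a : ℕ) < k) (hw : k ≤ (w : ℕ))
    (haw : (a : ℕ) = le k (w - k) ∨ (a : ℕ) = le k (w - k) + 1) {f : Fin n → Fin 3}
    (hf : IsRi2 ((PP n k).deleteEdges {s(a, w)}) f) : k + 1 ≤ weight f := by
  have hG : (PP n k).deleteEdges {s(a, w)} ≤ PP n k := SimpleGraph.deleteEdges_le _
  have hnot : ¬ ((PP n k).deleteEdges {s(a, w)}).Adj w a := by
    rw [SimpleGraph.deleteEdges_adj]
    intro h
    exact h.2 (by rw [Set.mem_singleton_iff, Sym2.eq_swap])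
  have hkeep : ∀ x y : Fin n, (PP n k).Adj x y → x ≠ w → y ≠ w → ((PP n k).deleteEdges {s(a, w)}).Adj x y := by
    intro x y h h1 h2
    rw [SimpleGraph.deleteEdges_adj]
    refine ⟨h, fun h3 => ?_⟩
    rw [Set.mem_singleton_iff, Sym2.eq_iff] at h3
    rcases h3 with h3 | h3
    · exact h2 h3.2
    · exact h1 h3.1
  have hw0 : f w ≠ 0 := by
    intro h0
    obtain ⟨x, y, hxy, hx, hy, -, -⟩ := zero_nb hf h0
    have c1 := hG hx
    have c2 := hG hy
    change _ ∨ _ at c1 c2
    have e1 : a ≠ x := fun h => hnot (h ▸ hx)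
    have e2 : a ≠ y := fun h => hnot (h ▸ hy)
    have g1 : (a : ℕ) ≠ x := fun h => e1 (Fin.ext h)
    have g2 : (a : ℕ) ≠ y := fun h => e2 (Fin.ext h)
    have g3 : (x : ℕ) ≠ y := fun h => hxy (Fin.ext h)
    omega
  have hsub : ∀ i s : Fin n, f i = 0 → (i : ℕ) < k → k ≤ (s : ℕ) →
      ((i : ℕ) = le k (s - k) ∨ (i : ℕ) = le k (s - k) + 1) → s ≠ w → f s ≠ 0 := by
    intro i s h1 h2 h3 h4 h5
    refine sub_ne hG hf h1 h3 (hkeep i s (PP_adj h2 h3 h4) ?_ h5)
    intro h; rw [h] at h2; omega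
  rcases Nat.lt_or_ge ((w : ℕ) - k) (k - 1) with hp | hp
  · -- `w` is on the path
    have h : ∀ i : Fin (k + 1), ∃ y : Fin n, f y ≠ 0 ∧ (((i : ℕ) = k ∧ y = w) ∨ ((i : ℕ) < k ∧ (y : ℕ) = i) ∨
        ((w : ℕ) - k + 1 ≤ i ∧ (i : ℕ) < k - 1 ∧ (y : ℕ) = k + i) ∨
        (1 ≤ (i : ℕ) ∧ (i : ℕ) ≤ w - k ∧ (y : ℕ) = k + i - 1) ∨ ((i : ℕ) = 0 ∧ 2 * k - 1 ≤ (y : ℕ))) := by
      intro i
      have hi := i.2
      by_cases hik : (i : ℕ) = k
      · exact ⟨w, hw0, Or.inl ⟨hik, rfl⟩⟩
      by_cases h0 : f ⟨i, by omega⟩ = 0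
      · by_cases hi0 : (i : ℕ) = 0
        · obtain ⟨x, y, hxy, hx, hy, hx1, hy1⟩ := zero_nb hf h0
          have c1 := hG hx
          have c2 := hG hy
          change _ ∨ _ at c1 c2
          have g3 : (x : ℕ) ≠ y := fun h => hxy (Fin.ext h)
          have h4 : 2 * k - 1 ≤ (x : ℕ) ∨ 2 * k - 1 ≤ (y : ℕ) := by
            unfold le at c1 c2
            simp only at c1 c2
            split_ifs at c1 c2 <;> omega
          rcases h4 with h4 | h4
          · exact ⟨x, hx1, Or.inr (Or.inr (Or.inr (Or.inr ⟨hi0, h4⟩)))⟩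
          · exact ⟨y, hy1, Or.inr (Or.inr (Or.inr (Or.inr ⟨hi0, h4⟩)))⟩
        by_cases h5 : (i : ℕ) ≤ w - k
        · refine ⟨⟨k + i - 1, by omega⟩, ?_, Or.inr (Or.inr (Or.inr (Or.inl ⟨by omega, h5, rfl⟩)))⟩
          refine hsub ⟨i, by omega⟩ _ h0 (by simp only; omega) (by simp only; omega) (Or.inr ?_) ?_
          · unfold le
            simp only
            rw [if_pos (by omega)]
            omega
          · intro h
            have := congrArg Fin.val h
            simp only at this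
            omega
        · have h1 : (i : ℕ) < k - 1 := by
            by_contra h2
            exact last_ne hk hG hf (i := ⟨i, by omega⟩) (by simp only; omega) h0
          refine ⟨⟨k + i, by omega⟩, ?_, Or.inr (Or.inr (Or.inl ⟨by omega, h1, rfl⟩))⟩
          refine hsub ⟨i, by omega⟩ _ h0 (by simp only; omega) (by simp) (Or.inl ?_) ?_
          · unfold le
            simp only [Nat.add_sub_cancel_left]
            rw [if_pos h1]
          · intro h
            have := congrArg Fin.val h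
            simp only at this
            omega
      · exact ⟨_, h0, Or.inr (Or.inl ⟨by omega, rfl⟩)⟩
    choose g hg1 hg2 using h
    refine card_ge g (fun i j hij => ?_) hg1
    have h1 := hg2 i
    have h2 := hg2 j
    rw [hij] at h1
    have e1 : g j = w → (g j : ℕ) = w := fun h => by rw [h]
    have := i.2
    have := j.2
    exact Fin.ext (by omega)
  · have h : ∀ i : Fin (k + 1), ∃ y : Fin n, f y ≠ 0 ∧ (((i : ℕ) = k ∧ y = w) ∨ ((i : ℕ) < k ∧ (y : ℕ) = i) ∨
        ((i : ℕ) < k - 1 ∧ (y : ℕ) = k + i)) := by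
      intro i
      have hi := i.2
      by_cases hik : (i : ℕ) = k
      · exact ⟨w, hw0, Or.inl ⟨hik, rfl⟩⟩
      by_cases h0 : f ⟨i, by omega⟩ = 0
      · have h1 : (i : ℕ) < k - 1 := by
          by_contra h2
          exact last_ne hk hG hf (i := ⟨i, by omega⟩) (by simp only; omega) h0
        refine ⟨⟨k + i, by omega⟩, ?_, Or.inr (Or.inr ⟨h1, rfl⟩)⟩
        refine hsub ⟨i, by omega⟩ _ h0 (by simp only; omega) (by simp) (Or.inl ?_) ?_
        · unfold le
          simp only [Nat.add_sub_cancel_left]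
          rw [if_pos h1]
        · intro h
          have := congrArg Fin.val h
          simp only at this
          omega
      · exact ⟨_, h0, Or.inr (Or.inl ⟨by omega, rfl⟩)⟩
    choose g hg1 hg2 using h
    refine card_ge g (fun i j hij => ?_) hg1
    have h1 := hg2 i
    have h2 := hg2 j
    rw [hij] at h1
    have e1 : g j = w → (g j : ℕ) = w := fun h => by rw [h]
    have := i.2
    have := j.2
    exact Fin.ext (by omega)

theorem PP_mem {n k : ℕ} (hk : 3 ≤ k) (hn : 2 * k - 1 ≤ n) : PP n k ∈ EE n k := by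
  refine ⟨PP_conn hk hn, PP_gam hk hn, ?_⟩
  intro e he h
  rw [PP_gam hk hn] at h
  obtain ⟨f, hf, hw⟩ := exists_min (by omega) h
  induction e using Sym2.ind with
  | _ a b =>
  rcases (show (PP n k).Adj a b from he) with ⟨h1, h2, h3⟩ | ⟨h1, h2, h3⟩
  · have := PP_crit hk hn h1 h2 h3 hf
    omega
  · rw [Sym2.eq_swap] at hf
    have := PP_crit hk hn h1 h2 h3 hf
    omega

end Pool.Agent.Helper58.Late.Ri2
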