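import Pool.Agent.Helper58.Late.Ri2C
import Pool.Agent.Helper58.Late.Ri2E

/-!
2-rainbow independent domination: graphs for which the deletion of every edge increases the number (MP_821169_co).
-/

set_option linter.unusedSectionVars false
set_option linter.unusedVariables false

open Finset

namespace Pool.Agent.Helper58.Late.Ri2

/-- every finite graph has a 2-rainbow independent dominating function -/
theorem exists_ri2 {V : Type} [Fintype V] [DecidableEq V] (G : SimpleGraph V) : ∃ f : V → Fin 3, IsRi2 G f := by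
  classical
  let P : Finset V → Prop := fun A => ∀ x ∈ A, ∀ y ∈ A, ¬ G.Adj x y
  have hins : ∀ (A : Finset V) (u : V), P A → (∀ x ∈ A, ¬ G.Adj u x) → P (insert u A) := by
    intro A u hA hu x hx y hy
    rw [mem_insert] at hx hy
    rcases hx with rfl | hx
    · rcases hy with rfl | hy
      · exact G.loopless.irrefl _
      · exact hu y hy
    · rcases hy with rfl | hy
      · exact fun h => hu x hx h.symm
      · exact hA x hx y hy
  obtain ⟨A, hA, hAm⟩ := exists_max_image (univ.filter fun A : Finset V => P A) card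
    ⟨∅, mem_filter.2 ⟨mem_univ _, fun x hx => absurd hx (notMem_empty x)⟩⟩
  obtain ⟨B, hB, hBm⟩ := exists_max_image (univ.filter fun B : Finset V => P B ∧ Disjoint A B) card
    ⟨∅, mem_filter.2 ⟨mem_univ _, fun x hx => absurd hx (notMem_empty x), disjoint_empty_right _⟩⟩
  rw [mem_filter] at hA hB
  have hdis : ∀ x ∈ B, x ∉ A := fun x hx hxA => (Finset.disjoint_left.1 hB.2.2) hxA hx
  refine ⟨fun x => if x ∈ A then 1 else if x ∈ B then 2 else 0, fun x y hx hy => ?_, fun x y hx hy => ?_, fun u hu => ?_⟩
  · have ex : x ∈ A := by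
      by_contra h0
      simp only [h0, if_false] at hx
      split_ifs at hx <;> exact absurd hx (by decide)
    have ey : y ∈ A := by
      by_contra h0
      simp only [h0, if_false] at hy
      split_ifs at hy <;> exact absurd hy (by decide)
    exact hA.2 x ex y ey
  · have ex : x ∈ B := by
      by_contra h0
      simp only [h0, if_false] at hx
      split_ifs at hx <;> exact absurd hx (by decide)
    have ey : y ∈ B := by
      by_contra h0
      simp only [h0, if_false] at hy
      split_ifs at hy <;> exact absurd hy (by decide)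
    exact hB.2.1 x ex y ey
  · have e1 : u ∉ A := fun h0 => by simp [h0] at hu
    have e2 : u ∉ B := fun h0 => by simp [h0, e1] at hu
    constructor
    · by_contra hcon
      push Not at hcon
      have h1 : P (insert u A) := hins A u hA.2 fun x hx h => hcon x h (by simp [hx])
      have h2 := hAm (insert u A) (mem_filter.2 ⟨mem_univ _, h1⟩)
      rw [card_insert_of_notMem e1] at h2
      omega
    · by_contra hcon
      push Not at hcon
      have h1 : P (insert u B) := hins B u hB.2.1 fun x hx h => hcon x h (by simp [hx, hdis x hx])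
      have h2 := hBm (insert u B) (mem_filter.2 ⟨mem_univ _, h1, by
        rw [disjoint_insert_right]
        exact ⟨e1, hB.2.2⟩⟩)
      rw [card_insert_of_notMem e2] at h2
      omega

theorem gam_mem {V : Type} [Fintype V] [DecidableEq V] (G : SimpleGraph V) :
    ∃ f, IsRi2 G f ∧ weight f = gam G := by
  obtain ⟨f, hf⟩ := exists_ri2 G
  exact Nat.sInf_mem (s := {w | ∃ f : V → Fin 3, IsRi2 G f ∧ weight f = w}) ⟨_, f, hf, rfl⟩

/-- the connected graphs of order `n` with domination number `k` for which the deletion of every edge increases it -/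
def EI (n k : ℕ) : Set (SimpleGraph (Fin n)) :=
  {G | G.Connected ∧ gam G = k ∧ ∀ e ∈ G.edgeSet, gam G < gam (G.deleteEdges {e})}

theorem PP_EI {n k : ℕ} (hk : 3 ≤ k) (hn : 2 * k - 1 ≤ n) : PP n k ∈ EI n k := by
  refine ⟨PP_conn hk hn, PP_gam hk hn, ?_⟩
  intro e he
  rw [PP_gam hk hn]
  obtain ⟨f, hf, hw⟩ := gam_mem ((PP n k).deleteEdges {e})
  rw [← hw]
  induction e using Sym2.ind with
  | _ a b =>
  rcases (show (PP n k).Adj a b from he) with ⟨h1, h2, h3⟩ | ⟨h1, h2, h3⟩
  · exact PP_crit hk hn h1 h2 h3 hf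
  · rw [Sym2.eq_swap] at hf
    exact PP_crit hk hn h1 h2 h3 hf

theorem KK_EI {n : ℕ} (hn : 3 ≤ n) : KK n ∈ EI n 2 := by
  obtain ⟨h1, h2, h3⟩ := KK_mem hn
  refine ⟨h1, h2, fun e he => ?_⟩
  obtain ⟨f, hf, hw⟩ := gam_mem ((KK n).deleteEdges {e})
  have h4 := two_le_weight (by rw [Fintype.card_fin]; omega) hf
  have h5 := h3 e he
  omega

/-- the upper bound -/
theorem EI_le {n k : ℕ} {G : SimpleGraph (Fin n)} (hk : gam G = k)
    (h : ∀ e ∈ G.edgeSet, gam G < gam (G.deleteEdges {e})) : G.edgeSet.ncard ≤ 2 * (n - k) := by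
  classical
  obtain ⟨f, hf, hw⟩ := gam_mem G
  rw [hk] at hw
  -- every edge is needed for a zero vertex
  have key : ∀ e : G.edgeSet, ∃ u y : Fin n, e.1 = s(u, y) ∧ f u = 0 ∧ f y ≠ 0 ∧
      ∀ z, G.Adj u z → f z = f y → z = y := by
    rintro ⟨e, he⟩
    by_contra hcon
    push Not at hcon
    have hnb : ∀ (u : Fin n) (c : Fin 3), f u = 0 → c ≠ 0 → (∃ x, G.Adj u x ∧ f x = c) →
        ∃ x, (G.deleteEdges {e}).Adj u x ∧ f x = c := by
      rintro u c hu hc ⟨x, hx, hxc⟩
      by_cases h1 : e = s(u, x)
      · obtain ⟨z, hz, hz1, hz2⟩ := hcon u x h1 hu (by rw [hxc]; exact hc)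
        refine ⟨z, ?_, hz1.trans hxc⟩
        rw [SimpleGraph.deleteEdges_adj]
        refine ⟨hz, fun h3 => ?_⟩
        rw [Set.mem_singleton_iff, h1, Sym2.eq_iff] at h3
        rcases h3 with h3 | h3
        · exact hz2 h3.2
        · exact hx.ne h3.1
      · refine ⟨x, ?_, hxc⟩
        rw [SimpleGraph.deleteEdges_adj]
        exact ⟨hx, fun h3 => h1 (Set.mem_singleton_iff.1 h3).symm⟩
    have hf' : IsRi2 (G.deleteEdges {e}) f := by
      refine ⟨fun x y hx hy h0 => hf.1 x y hx hy ?_, fun x y hx hy h0 => hf.2.1 x y hx hy ?_, fun u hu => ?_⟩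
      · exact (SimpleGraph.deleteEdges_le _) h0
      · exact (SimpleGraph.deleteEdges_le _) h0
      · obtain ⟨h1, h2⟩ := hf.2.2 u hu
        exact ⟨hnb u 1 hu (by decide) h1, hnb u 2 hu (by decide) h2⟩
    have h1 := gam_le hf'
    have h2 := h e he
    omega
  choose u y huy hu hy huniq using key
  let F : G.edgeSet → {u : Fin n // f u = 0} × Bool := fun e => (⟨u e, hu e⟩, decide (f (y e) = 1))
  have hF : Function.Injective F := by
    intro e e' hee
    have h1 : u e = u e' := congrArg (fun p : {u : Fin n // f u = 0} × Bool => p.1.1) hee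
    have h2 : decide (f (y e) = 1) = decide (f (y e') = 1) := congrArg Prod.snd hee
    have h3 : f (y e) = f (y e') := by
      rw [decide_eq_decide] at h2
      have c1 := hy e
      have c2 := hy e'
      have gen : ∀ p q : Fin 3, p ≠ 0 → q ≠ 0 → (p = 1 ↔ q = 1) → p = q := by decide
      exact gen _ _ c1 c2 h2
    have h4 : G.Adj (u e) (y e) := by
      have := e.2
      rw [huy e] at this
      exact this
    have h5 : y e = y e' := huniq e' (y e) (h1 ▸ h4) h3
    exact Subtype.ext (by rw [huy e, huy e', h1, h5])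
  have hc := Fintype.card_le_of_injective F hF
  rw [Fintype.card_prod, Fintype.card_bool] at hc
  have e1 : Fintype.card G.edgeSet = G.edgeSet.ncard := by
    rw [Set.ncard_eq_toFinset_card', Set.toFinset_card]
  have e2 : Fintype.card {u : Fin n // f u = 0} = n - k := by
    rw [Fintype.card_subtype]
    have h1 := card_filter_add_card_filter_not (s := (univ : Finset (Fin n))) (fun x => f x = 0)
    rw [card_univ, Fintype.card_fin] at h1
    have h2 : (univ.filter fun x => ¬ f x = 0).card = k := hw
    omega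
  rw [e1, e2] at hc
  omega

/-- a connected graph of order `n` has at least `n - 1` edges, so `EI n k` is empty for `n < 2 k - 1` -/
theorem EI_order {n k : ℕ} (hk : 2 ≤ k) {G : SimpleGraph (Fin n)} (hG : G ∈ EI n k) : 2 * k - 1 ≤ n ∧ 3 ≤ n := by
  classical
  have h1 := EI_le hG.2.1 hG.2.2
  have h2 := hG.1.card_vert_le_card_edgeSet_add_one
  rw [Nat.card_fin] at h2
  have h3 : Nat.card G.edgeSet = G.edgeSet.ncard := rfl
  rw [h3] at h2
  have h4 : k ≤ n := by
    obtain ⟨f, hf, hw⟩ := gam_mem G
    rw [hG.2.1] at hw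
    rw [← hw]
    unfold weight
    exact (card_le_univ _).trans (by rw [Fintype.card_fin])
  refine ⟨by omega, ?_⟩
  by_contra h5
  have h6 : G ∈ EE n k := ⟨hG.1, hG.2.1, fun e he => (hG.2.2 e he).ne'⟩
  have h7 : k = 2 := by omega
  subst h7
  rw [EE_small (by omega)] at h6
  exact h6

end Pool.Agent.Helper58.Late.Ri2
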